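import Pool.Agent.V1130.FibD

set_option autoImplicit false

namespace Pool.Agent.Results.MP_4dd1f4_al.NoSix

open Equiv

universe u v

/-- A quandle on `P`, given by its point symmetries `s x`, `x ∈ P`. -/
structure IsQuandle {P : Type u} (s : P → Perm P) : Prop where
  fix : ∀ x, s x x = x
  dist : ∀ x y, s x * s y = s (s x y) * s x

/-- Quandle homomorphisms. -/
def IsHom {P : Type u} {Q : Type v} (s : P → Perm P) (t : Q → Perm Q) (f : P → Q) : Prop :=
  ∀ x y, f (s x y) = t (f x) (f y)

/-- The inner automorphism group, generated by all point symmetries. -/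
def Inn {P : Type u} (s : P → Perm P) : Subgroup (Perm P) := Subgroup.closure (Set.range s)

/-- The relative inner automorphism group: the inner automorphisms mapping every fibre of `f` to
itself. -/
def RelInn {P : Type u} {Q : Type v} (s : P → Perm P) (f : P → Q) : Subgroup (Perm P) where
  carrier := {g | g ∈ Inn s ∧ ∀ x, f (g x) = f x}
  one_mem' := ⟨Subgroup.one_mem _, fun _ => rfl⟩
  mul_mem' := by
    rintro a b ⟨ha, ha'⟩ ⟨hb, hb'⟩
    exact ⟨Subgroup.mul_mem _ ha hb, fun x => by rw [Perm.mul_apply, ha', hb']⟩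
  inv_mem' := by
    rintro a ⟨ha, ha'⟩
    refine ⟨Subgroup.inv_mem _ ha, fun x => ?_⟩
    rw [← ha' (a⁻¹ x), ← Perm.mul_apply, mul_inv_cancel, Perm.one_apply]

/-- Doubly transitive homomorphisms: surjective quandle homomorphisms for which the relative inner
automorphism group is transitive on ordered pairs of distinct points of each fibre. -/
def DoublyTransitive {P : Type u} {Q : Type v} (s : P → Perm P) (t : Q → Perm Q) (f : P → Q) :
    Prop :=
  IsHom s t f ∧ Function.Surjective f ∧
    ∀ (q : Q) (x y x' y' : P), f x = q → f y = q → f x' = q → f y' = q → x ≠ y → x' ≠ y' →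
      ∃ g ∈ RelInn s f, g x = x' ∧ g y = y'

/-- The fibre over `q`, with the quandle structure inherited from `P`, is isomorphic to the trivial
quandle of order `n`: it has `n` elements and its point symmetries act trivially on it. -/
def TrivialFibre {P : Type u} {Q : Type v} (s : P → Perm P) (f : P → Q) (q : Q) (n : ℕ) : Prop :=
  0 < n ∧ Nat.card {x : P // f x = q} = n ∧ ∀ x y, f x = q → f y = q → s x y = y

instance act {P : Type u} {Q : Type v} (s : P → Perm P) (f : P → Q) (q : Q) :
    MulAction (RelInn s f) {x : P // f x = q} where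
  smul g x := ⟨g.1 x.1, (g.2.2 x.1).trans x.2⟩
  one_smul _ := rfl
  mul_smul _ _ _ := rfl

theorem conj_inn {P : Type u} {s : P → Perm P} (hs : IsQuandle s) (g : Perm P) (hg : g ∈ Inn s) :
    ∀ x, g * s x * g⁻¹ = s (g x) := by
  unfold Inn at hg
  induction hg using Subgroup.closure_induction with
  | mem z hz =>
    obtain ⟨y, rfl⟩ := hz
    intro x
    rw [hs.dist y x]
    group
  | one => intro x; simp
  | mul a b _ _ iha ihb =>
    intro x
    rw [Perm.mul_apply, ← iha, ← ihb]
    group
  | inv a _ iha =>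
    intro x
    have := iha (a⁻¹ x)
    rw [← Perm.mul_apply, mul_inv_cancel, Perm.one_apply] at this
    rw [← this]
    group

theorem hom_inv {P : Type u} {Q : Type v} {s : P → Perm P} {t : Q → Perm Q} {f : P → Q}
    (hf : IsHom s t f) (y x : P) : f ((s y)⁻¹ x) = (t (f y))⁻¹ (f x) := by
  rw [Perm.eq_inv_iff_eq, ← hf, ← Perm.mul_apply, mul_inv_cancel, Perm.one_apply]

theorem conj_mem {P : Type u} {Q : Type v} {s : P → Perm P} {t : Q → Perm Q} {f : P → Q}
    (hf : IsHom s t f) (y : P) (n : Perm P) (hn : n ∈ RelInn s f) :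
    s y * n * (s y)⁻¹ ∈ RelInn s f := by
  have hy : s y ∈ Inn s := Subgroup.subset_closure ⟨y, rfl⟩
  refine ⟨Subgroup.mul_mem _ (Subgroup.mul_mem _ hy hn.1) (Subgroup.inv_mem _ hy), fun x => ?_⟩
  rw [Perm.mul_apply, Perm.mul_apply, hf, hn.2, hom_inv hf, ← Perm.mul_apply, mul_inv_cancel,
    Perm.one_apply]

theorem conj_mem' {P : Type u} {Q : Type v} {s : P → Perm P} {t : Q → Perm Q} {f : P → Q}
    (hf : IsHom s t f) (y : P) (n : Perm P) (hn : n ∈ RelInn s f) :
    (s y)⁻¹ * n * s y ∈ RelInn s f := by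
  have hy : s y ∈ Inn s := Subgroup.subset_closure ⟨y, rfl⟩
  refine ⟨Subgroup.mul_mem _ (Subgroup.mul_mem _ (Subgroup.inv_mem _ hy) hn.1) hy, fun x => ?_⟩
  rw [Perm.mul_apply, Perm.mul_apply, hom_inv hf, hn.2, hf, ← Perm.mul_apply, inv_mul_cancel,
    Perm.one_apply]

/-- Conjugation by a point symmetry on the relative inner automorphism group. -/
def conjEquiv {P : Type u} {Q : Type v} {s : P → Perm P} {t : Q → Perm Q} {f : P → Q}
    (hf : IsHom s t f) (y : P) : RelInn s f ≃* RelInn s f where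
  toFun n := ⟨s y * n.1 * (s y)⁻¹, conj_mem hf y n.1 n.2⟩
  invFun n := ⟨(s y)⁻¹ * n.1 * s y, conj_mem' hf y n.1 n.2⟩
  left_inv n := by apply Subtype.ext; simp only; group
  right_inv n := by apply Subtype.ext; simp only; group
  map_mul' a b := by apply Subtype.ext; simp only [Subgroup.coe_mul]; group

/-- No fibre of a doubly transitive homomorphism has six elements. -/
theorem no_six {P : Type u} {Q : Type v} {s : P → Perm P} {t : Q → Perm Q} {f : P → Q}
    (hs : IsQuandle s) (ht : IsQuandle t) (hf : DoublyTransitive s t f) (q : Q) :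
    Nat.card {x : P // f x = q} ≠ 6 := by
  intro h6
  obtain ⟨hhom, -, h2⟩ := hf
  have two : ∀ (r : Q) (a b c d : {x : P // f x = r}), a ≠ b → c ≠ d →
      ∃ g : RelInn s f, g • a = c ∧ g • b = d := by
    rintro r ⟨a, ha⟩ ⟨b, hb⟩ ⟨c, hc⟩ ⟨d, hd⟩ hab hcd
    obtain ⟨g, hg, h, h'⟩ := h2 r a b c d ha hb hc hd
      (fun h => hab (Subtype.ext h)) (fun h => hcd (Subtype.ext h))
    exact ⟨⟨g, hg⟩, Subtype.ext h, Subtype.ext h'⟩
  -- point symmetries act trivially on the image of the relative group in the fibre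
  have key : ∀ (y : P), ∀ n ∈ RelInn s f, ∀ a, f a = q → (s y * n * (s y)⁻¹) a = n a := by
    intro y n hn a ha
    have hpres : ∀ x, f (s y x) = f y ↔ f x = f y := by
      intro x
      rw [hhom]
      constructor
      · intro h
        have h' : t (f y) (f x) = t (f y) (f y) := by rw [h, ht.fix]
        exact (t (f y)).injective h'
      · intro h
        rw [h, ht.fix]
    have := Pool.Agent.V1130.Fib.core (G := RelInn s f) (α := {x : P // f x = q})
      (β := {x : P // f x = f y}) h6 (two q) (two (f y)) (conjEquiv hhom y)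
      ((s y).subtypePerm hpres) (by
        rintro ⟨g, hg⟩ ⟨b, hb⟩
        apply Subtype.ext
        change s y (g b) = (s y * g * (s y)⁻¹) (s y b)
        rw [← Perm.mul_apply, ← Perm.mul_apply]
        congr 1
        group) ⟨y, rfl⟩ (by
        apply Subtype.ext
        exact hs.fix y) (by
        rintro ⟨g, hg⟩ hgy
        apply Subtype.ext
        change s y * g * (s y)⁻¹ = g
        have h1 : g y = y := congrArg Subtype.val hgy
        have h3 := conj_inn hs g hg.1 y
        rw [h1] at h3
        calc s y * g * (s y)⁻¹ = (g * s y * g⁻¹) * g * (s y)⁻¹ := by rw [h3]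
          _ = g := by group) ⟨n, hn⟩ ⟨a, ha⟩
    exact congrArg Subtype.val this
  -- all inner automorphisms do
  have all : ∀ g ∈ Inn s, ∀ n ∈ RelInn s f, (g * n * g⁻¹ ∈ RelInn s f ∧ g⁻¹ * n * g ∈ RelInn s f) ∧
      ∀ a, f a = q → (g * n * g⁻¹) a = n a := by
    intro g hg
    unfold Inn at hg
    induction hg using Subgroup.closure_induction with
    | mem z hz =>
      obtain ⟨y, rfl⟩ := hz
      intro n hn
      exact ⟨⟨conj_mem hhom y n hn, conj_mem' hhom y n hn⟩, key y n hn⟩
    | one =>
      intro n hn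
      simp [hn]
    | mul a b _ _ iha ihb =>
      intro n hn
      obtain ⟨⟨hb1, hb2⟩, hb3⟩ := ihb n hn
      obtain ⟨⟨ha1, ha2⟩, ha3⟩ := iha _ hb1
      obtain ⟨⟨_, ha4⟩, _⟩ := iha n hn
      have e1 : a * b * n * (a * b)⁻¹ = a * (b * n * b⁻¹) * a⁻¹ := by group
      have e2 : (a * b)⁻¹ * n * (a * b) = b⁻¹ * (a⁻¹ * n * a) * b := by group
      rw [e1, e2]
      refine ⟨⟨ha1, (ihb _ ha4).1.2⟩, fun x hx => ?_⟩
      rw [ha3 x hx, hb3 x hx]
    | inv a _ iha =>
      intro n hn
      obtain ⟨⟨ha1, ha2⟩, _⟩ := iha n hn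
      rw [inv_inv]
      refine ⟨⟨ha2, ha1⟩, fun x hx => ?_⟩
      have := (iha _ ha2).2 x hx
      have e : a * (a⁻¹ * n * a) * a⁻¹ = n := by group
      rw [e] at this
      exact this.symm
  have hfin : Finite {x : P // f x = q} := Nat.finite_of_card_ne_zero (by rw [h6]; norm_num)
  obtain ⟨a0, a1, ha⟩ : ∃ a0 a1 : {x : P // f x = q}, a0 ≠ a1 := by
    have : Nontrivial {x : P // f x = q} :=
      Finite.one_lt_card_iff_nontrivial.1 (by rw [h6]; norm_num)
    exact exists_pair_ne _
  obtain ⟨m, hm, _⟩ := two q a0 a1 a1 a0 ha (Ne.symm ha)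
  have hma : m • a0 ≠ a0 := by rw [hm]; exact Ne.symm ha
  apply hma
  refine Pool.Agent.V1130.Fib.cent h6 (two q) ⊤ inferInstance m (Subgroup.mem_top _) a0 hma m ?_ a0
  rintro ⟨k, hk⟩ _ ⟨x, hx⟩
  obtain ⟨g, hg⟩ := m
  apply Subtype.ext
  change g (k x) = k (g x)
  have := (all g hg.1 k hk).2 (g x) ((hg.2 x).trans hx)
  rw [← this]
  simp

/-- No fibre of a doubly transitive quandle homomorphism has exactly six elements; in particular
the trivial quandle of order six is never such a fibre, so the answer to the question is no. -/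
theorem result :
    (∀ (P : Type u) (Q : Type v) (s : P → Perm P) (t : Q → Perm Q) (f : P → Q),
      IsQuandle s → IsQuandle t → DoublyTransitive s t f →
        ∀ q : Q, Nat.card {x : P // f x = q} ≠ 6) ∧
    ¬ ∀ n : ℕ, 0 < n → ∃ (P : Type u) (Q : Type v) (s : P → Perm P) (t : Q → Perm Q) (f : P → Q)
      (q : Q), IsQuandle s ∧ IsQuandle t ∧ DoublyTransitive s t f ∧ TrivialFibre s f q n := by
  refine ⟨fun P Q s t f hs ht hf q => no_six hs ht hf q, ?_⟩
  intro h
  obtain ⟨P, Q, s, t, f, q, hs, ht, hf, _, hq, _⟩ := h 6 (by norm_num)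
  exact no_six hs ht hf q hq

end Pool.Agent.Results.MP_4dd1f4_al.NoSix
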